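import Pool.Agent.Lib.MP_95f78b_al.Rg
import Pool.Agent.Lib.MP_8f66f0_al_Wald.PdN

/-! Groups of type FP have finite cohomological dimension. -/

set_option autoImplicit false

open CategoryTheory CategoryTheory.Limits

namespace Pool.Agent.TypeFF

variable {G : Type} [Group G]

theorem fres_pd {n : ℕ} {M : Rep.{0} ℤ G} (h : FRes PP n M) :
    HasProjectiveDimensionLE (Ob M) n := by
  induction h with
  | @zero M h =>
    have h1 := (pp_finite h).2
    have h2 : Projective (Ob M) := (IsProjective.iff_projective (R := MonoidAlgebra ℤ G) (Ob M)).1 h1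
    exact (projective_iff_hasProjectiveDimensionLE_zero _).1 h2
  | @succ n K P M f g w h hP _ ih =>
    have h1 := (pp_finite hP).2
    have h2 : Projective (Ob P) := (IsProjective.iff_projective (R := MonoidAlgebra ℤ G) (Ob P)).1 h1
    have h3 := h.map_of_exact (Rep.toModuleMonoidAlgebra (k := ℤ) (G := G))
    exact (h3.hasProjectiveDimensionLT_X₃_iff n h2).2 ih

/-- A group of type FP has finite cohomological dimension. -/
theorem cd_of_fp (h : HasRes PP (Rep.trivial ℤ G ℤ)) : ∃ n, Wald.CdLE n G := by
  obtain ⟨n, hn⟩ := fres_of_hasRes PP (fun _ hX => ff_pp (ff_zero hX)) h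
  exact ⟨n, fres_pd hn⟩

end Pool.Agent.TypeFF
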