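import Pool.Agent.Lib.MP_95f78b_al.Step
import Pool.Agent.Lib.MP_8f66f0_al_Wald.GrDefs

/-!
# Groups of type `FP` whose finitely generated projective modules are stably free

If all finitely generated projective `ℤ[G]`-modules are stably free and `G` is of type `FP`, then `G`
is of type `FF`.
-/

set_option autoImplicit false

namespace Pool.Agent.FF

open CategoryTheory CategoryTheory.Limits

variable {G : Type} [Group G]

/-- The free module on `n` elements. -/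
theorem free_iso (n : ℕ) : Nonempty ((Rep.toModuleMonoidAlgebra (k := ℤ) (G := G)).obj
    (Rep.free ℤ G (Fin n)) ≅ ModuleCat.of (MonoidAlgebra ℤ G) (Fin n → MonoidAlgebra ℤ G)) :=
  ⟨(Representation.freeAsModuleBasis ℤ G (Fin n)).equivFun.toModuleIso⟩

theorem biprod_iso (X Y : Rep.{0} ℤ G) :
    Nonempty ((Rep.toModuleMonoidAlgebra (k := ℤ) (G := G)).obj (X ⊞ Y) ≅
      ModuleCat.of (MonoidAlgebra ℤ G) ((Rep.toModuleMonoidAlgebra (k := ℤ) (G := G)).obj X ×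
        (Rep.toModuleMonoidAlgebra (k := ℤ) (G := G)).obj Y)) := by
  have : (Rep.toModuleMonoidAlgebra (k := ℤ) (G := G)).IsEquivalence := inferInstance
  have : (Rep.toModuleMonoidAlgebra (k := ℤ) (G := G)).PreservesZeroMorphisms := inferInstance
  have : PreservesBinaryBiproduct X Y (Rep.toModuleMonoidAlgebra (k := ℤ) (G := G)) :=
    preservesBinaryBiproduct_of_preservesBinaryProduct _
  exact ⟨(Rep.toModuleMonoidAlgebra (k := ℤ) (G := G)).mapBiprod X Y ≪≫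
    ModuleCat.biprodIsoProd _ _⟩

theorem free_add (n m : ℕ) : Nonempty (Rep.free.{0} ℤ G (Fin n) ⊞ Rep.free.{0} ℤ G (Fin m) ≅
    Rep.free.{0} ℤ G (Fin (n + m))) := by
  obtain ⟨e1⟩ := free_iso (G := G) n
  obtain ⟨e2⟩ := free_iso (G := G) m
  obtain ⟨e3⟩ := free_iso (G := G) (n + m)
  obtain ⟨e4⟩ := biprod_iso (Rep.free ℤ G (Fin n)) (Rep.free ℤ G (Fin m))
  have e5 : ((Fin n → MonoidAlgebra ℤ G) × (Fin m → MonoidAlgebra ℤ G)) ≃ₗ[MonoidAlgebra ℤ G]
      (Fin (n + m) → MonoidAlgebra ℤ G) :=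
    (LinearEquiv.sumArrowLequivProdArrow (Fin n) (Fin m) (MonoidAlgebra ℤ G)
      (MonoidAlgebra ℤ G)).symm.trans (LinearEquiv.funCongrLeft (MonoidAlgebra ℤ G)
        (MonoidAlgebra ℤ G) finSumFinEquiv.symm)
  have e6 := (e1.toLinearEquiv.prodCongr e2.toLinearEquiv).trans (e5.trans e3.toLinearEquiv.symm)
  exact ⟨(Rep.toModuleMonoidAlgebra (k := ℤ) (G := G)).preimageIso (e4 ≪≫ e6.toModuleIso)⟩

theorem sf_of_retract (h : Wald.ProjSF (MonoidAlgebra ℤ G)) (X : Rep.{0} ℤ G) (n : ℕ)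
    (f : X ⟶ Rep.free ℤ G (Fin n)) (g : Rep.free ℤ G (Fin n) ⟶ X) (hfg : f ≫ g = 𝟙 X) :
    SF (fun n => Rep.free ℤ G (Fin n)) X := by
  obtain ⟨e1⟩ := free_iso (G := G) n
  let F := Rep.toModuleMonoidAlgebra (k := ℤ) (G := G)
  let i : F.obj X →ₗ[MonoidAlgebra ℤ G] (Fin n → MonoidAlgebra ℤ G) := (F.map f ≫ e1.hom).hom
  let p : (Fin n → MonoidAlgebra ℤ G) →ₗ[MonoidAlgebra ℤ G] F.obj X := (e1.inv ≫ F.map g).hom
  have hpi : p ∘ₗ i = LinearMap.id := by
    have h1 : (F.map f ≫ e1.hom) ≫ (e1.inv ≫ F.map g) = 𝟙 (F.obj X) := by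
      rw [Category.assoc, Iso.hom_inv_id_assoc, ← F.map_comp, hfg, F.map_id]
    have h2 := congrArg ModuleCat.Hom.hom h1
    exact h2
  have h1 : Module.Finite (MonoidAlgebra ℤ G) (F.obj X) :=
    Module.Finite.of_surjective p fun x => ⟨i x, LinearMap.congr_fun hpi x⟩
  have h2 : Module.Projective (MonoidAlgebra ℤ G) (F.obj X) := Module.Projective.of_split i p hpi
  obtain ⟨a, b, ⟨e⟩⟩ := h (F.obj X)
  obtain ⟨e2⟩ := free_iso (G := G) a
  obtain ⟨e3⟩ := free_iso (G := G) b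
  obtain ⟨e4⟩ := biprod_iso X (Rep.free ℤ G (Fin a))
  have e6 := ((LinearEquiv.refl (MonoidAlgebra ℤ G) (F.obj X)).prodCongr e2.toLinearEquiv).trans
    (e.trans e3.toLinearEquiv.symm)
  exact ⟨a, b, ⟨F.preimageIso (e4 ≪≫ e6.toModuleIso)⟩⟩

theorem free_zero : IsZero (Rep.free.{0} ℤ G (Fin 0)) := by
  rw [IsZero.iff_id_eq_zero]
  obtain ⟨e1⟩ := free_iso (G := G) 0
  have h : IsZero ((Rep.toModuleMonoidAlgebra (k := ℤ) (G := G)).obj (Rep.free ℤ G (Fin 0))) :=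
    (ModuleCat.isZero_of_subsingleton (ModuleCat.of (MonoidAlgebra ℤ G)
      (Fin 0 → MonoidAlgebra ℤ G))).of_iso e1
  exact (Rep.toModuleMonoidAlgebra (k := ℤ) (G := G)).map_injective (h.eq_of_src _ _)

/-- If all finitely generated projective modules are stably free, then type `FP` implies type
`FF`. -/
theorem ff_of_fp (G : Type) [Group G] (h : Wald.ProjSF (MonoidAlgebra ℤ G))
    (hFP : ∃ P : CategoryTheory.ProjectiveResolution (Rep.trivial ℤ G ℤ),
      (∃ N : ℕ, ∀ i : ℕ, N < i → CategoryTheory.Limits.IsZero (P.complex.X i)) ∧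
      ∀ i : ℕ, ∃ n : ℕ, ∃ f : Quiver.Hom (P.complex.X i) (Rep.free ℤ G (Fin n)),
        ∃ g : Quiver.Hom (Rep.free ℤ G (Fin n)) (P.complex.X i),
          CategoryTheory.CategoryStruct.comp f g =
            CategoryTheory.CategoryStruct.id (P.complex.X i)) :
    ∃ P : CategoryTheory.ProjectiveResolution (Rep.trivial ℤ G ℤ),
      (∃ N : ℕ, ∀ i : ℕ, N < i → CategoryTheory.Limits.IsZero (P.complex.X i)) ∧
      ∀ i : ℕ, ∃ n : ℕ,
        Nonempty (CategoryTheory.Iso (P.complex.X i) (Rep.free ℤ G (Fin n))) := by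
  obtain ⟨P, ⟨N, hN⟩, hP⟩ := hFP
  refine free_of_sf (fun n => Rep.free.{0} ℤ G (Fin n)) (fun n => inferInstance)
    (fun n m => free_add n m) ⟨0, free_zero⟩ N P hN fun i => ?_
  obtain ⟨n, f, g, hfg⟩ := hP i
  exact sf_of_retract h _ n f g hfg

end Pool.Agent.FF
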