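import Pool.Agent.Lib.MP_95f78b_al.Cd
import Pool.Agent.Lib.MP_8f66f0_al_HierZ.FinalS

/-! Type FF for groups of type FP in the class `CC`. -/

set_option autoImplicit false

open CategoryTheory CategoryTheory.Limits

namespace Pool.Agent.TypeFF

open Pool.Agent.Hier Pool.Agent.Ind

/-- Groups of type FP in the class `KC` are of type FF. -/
theorem ff_of_kc {G : Type} [Group G] (hG : KC G) (h : HasRes PP (Rep.trivial ℤ G ℤ)) :
    HasRes FF (Rep.trivial ℤ G ℤ) :=
  hasRes_ff (kc_projSF hG ℤ isEuc_int) h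

/-- Groups of type FP in the class `CC` are of type FF. -/
theorem ff_of_cc {G : Type} [Group G] (hG : WhVan.CC G) (h : HasRes PP (Rep.trivial ℤ G ℤ)) :
    HasRes FF (Rep.trivial ℤ G ℤ) :=
  ff_of_kc (WhVan.kc_of_CC hG) h

/-- A group of type FP which is an amalgam of groups of the class along a group of the class is in
the class. -/
theorem cc_pushout_fp (G : Bool → Type) [∀ i, Group (G i)] (E : Type) [Group E]
    (φ : ∀ i, E →* G i) (hφ : ∀ i, Function.Injective (φ i)) (hG : ∀ i, WhVan.CC (G i))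
    (hE : WhVan.CC E) (h : HasRes PP (Rep.trivial ℤ (Monoid.PushoutI φ) ℤ)) :
    WhVan.CC (Monoid.PushoutI φ) := by
  obtain ⟨n, hn⟩ := cd_of_fp h
  exact WhVan.CC.amalgam G E φ 0 hφ hG hE fun _ _ _ =>
    ⟨⊤, fun _ _ _ => Subgroup.mem_top _, WhVan.NN.iso Subgroup.topEquiv.symm (WhVan.NN.cd n hn)⟩

theorem cc_hnn_fp (G : Type) [Group G] (A B : Subgroup G) (φ : A ≃* B) (hG : WhVan.CC G)
    (hA : WhVan.CC A) (h : HasRes PP (Rep.trivial ℤ (HNNExtension G A B φ) ℤ)) :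
    WhVan.CC (HNNExtension G A B φ) := by
  obtain ⟨n, hn⟩ := cd_of_fp h
  exact WhVan.CC.hnn G A B φ 0 hG hA fun _ _ _ =>
    ⟨⊤, fun _ _ _ => Subgroup.mem_top _, WhVan.NN.iso Subgroup.topEquiv.symm (WhVan.NN.cd n hn)⟩

end Pool.Agent.TypeFF
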