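import Pool.Agent.Lib.MP_95f78b_al.Tf
import Pool.Agent.Lib.MP_95f78b_al.Fin
import Pool.Agent.Lib.MP_8f66f0_al_LQ.Conv

/-! Groups of type FP in the class `LQ` are of type FF (from the rule `S_ZP KS` and the theorem
`S_INT`). -/

set_option autoImplicit false

open CategoryTheory

namespace Pool.Agent.TypeFF

theorem lq_ff (hI : ZN.S_INT) (hZ : ZN.S_ZP TreeC.KS) {G : Type} [Group G] (hG : LinAll.LQ G)
    (h : HasRes PP (Rep.trivial ℤ G ℤ)) : HasRes FF (Rep.trivial ℤ G ℤ) := by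
  obtain ⟨n, hn⟩ := cd_of_fp h
  exact ff_of_cc (WhVan.CC.base fun L _ _ hL =>
    LinAll.lq_k1 hI hZ hG (fun g m hm hg => Tf.tf_of_cd n hn g m hm hg) L hL) h

end Pool.Agent.TypeFF
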