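import Pool.Agent.Lib.MP_95f78b_al.Fin
import Pool.Agent.Lib.MP_8f66f0_al_LQ2.Conv

/-! Groups of type FP in the class `LQ2` are of type FF (from the theorem on 2-dimensional CAT(0)
complexes). -/

set_option autoImplicit false

open CategoryTheory

namespace Pool.Agent.TypeFF

theorem lq2_ff (hC : LinAll.S_cat) {G : Type} [Group G] (hG : LinAll.LQ2 G)
    (h : HasRes PP (Rep.trivial ℤ G ℤ)) : HasRes FF (Rep.trivial ℤ G ℤ) :=
  ff_of_cc (WhVan.CC.base fun L _ _ hL => LinAll.lq2_k1 hC hG L hL) h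

end Pool.Agent.TypeFF
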