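import Pool.Agent.Lib.MP_95f78b_al.LQ
import Pool.Agent.Lib.MP_8f66f0_al_ZA.Zero
import Pool.Agent.Lib.MP_8f66f0_al_ZI.IntF

/-! Groups of type FP in the class `LQ` are of type FF. -/

set_option autoImplicit false

open CategoryTheory

namespace Pool.Agent.TypeFF

theorem lqa_ff {G : Type} [Group G] (hG : LinAll.LQ G) (h : HasRes PP (Rep.trivial ℤ G ℤ)) :
    HasRes FF (Rep.trivial ℤ G ℤ) :=
  lq_ff ZI.int_fin ZA.s_zero hG h

end Pool.Agent.TypeFF
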