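import Mathlib

/-! Finite resolutions in an abelian category: spliced short exact sequences and projective
resolutions. -/

set_option autoImplicit false

open CategoryTheory CategoryTheory.Limits

namespace Pool.Agent.TypeFF

universe v u

variable {C : Type u} [Category.{v} C] [Abelian C]

/-- `M` has a resolution of length at most `n` with terms in `F`, given as spliced short exact
sequences. -/
inductive FRes (F : C → Prop) : ℕ → C → Prop
  | zero {M : C} : F M → FRes F 0 M
  | succ {n : ℕ} {K P M : C} (f : K ⟶ P) (g : P ⟶ M) (w : f ≫ g = 0) :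
      (ShortComplex.mk f g w).ShortExact → F P → FRes F n K → FRes F (n + 1) M

/-- `M` has a projective resolution with terms in `F` and finitely many nonzero terms. -/
def HasRes (F : C → Prop) (M : C) : Prop :=
  ∃ P : ProjectiveResolution M,
    (∃ N : ℕ, ∀ i : ℕ, N < i → IsZero (P.complex.X i)) ∧ ∀ i : ℕ, F (P.complex.X i)

section Eps

variable {K : C} (Q : ProjectiveResolution K)

/-- The augmentation of a projective resolution. -/
noncomputable def eps : Q.complex.X 0 ⟶ K := Q.π.f 0

theorem d_eps : Q.complex.d 1 0 ≫ eps Q = 0 := Q.complex_d_comp_π_f_zero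

theorem epi_eps : Epi (eps Q) := inferInstanceAs (Epi (Q.π.f 0))

theorem exact_eps : (ShortComplex.mk (Q.complex.d 1 0) (eps Q) (d_eps Q)).Exact := Q.exact₀

end Eps

section Splice

variable {K P M : C} (f : K ⟶ P) (g : P ⟶ M) (w : f ≫ g = 0)
  (h : (ShortComplex.mk f g w).ShortExact) (Q : ProjectiveResolution K)

theorem aug_w : Q.complex.d 1 0 ≫ (eps Q ≫ f) = 0 := by
  rw [← Category.assoc, d_eps, zero_comp]

/-- The augmented complex. -/
noncomputable def augC : ChainComplex C ℕ :=
  Q.complex.augment (eps Q ≫ f) (aug_w f Q)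

theorem augC_d10 : (augC f Q).d 1 0 = eps Q ≫ f := rfl

theorem augC_dss (i j : ℕ) : (augC f Q).d (i + 1) (j + 1) = Q.complex.d i j :=
  ChainComplex.augment_d_succ_succ _ _ _ i j

include h in
theorem augC_exactAt (n : ℕ) : (augC f Q).ExactAt (n + 1) := by
  rw [HomologicalComplex.exactAt_iff' _ (n + 2) (n + 1) n (by simp) (by simp)]
  have : Mono f := h.mono_f
  match n with
  | 0 =>
    let α : ShortComplex.mk (Q.complex.d 1 0) (eps Q) (d_eps Q) ⟶
        ShortComplex.mk (Q.complex.d 1 0) (eps Q ≫ f) (aug_w f Q) :=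
      { τ₁ := 𝟙 _
        τ₂ := 𝟙 _
        τ₃ := f }
    exact (ShortComplex.exact_iff_of_epi_of_isIso_of_mono α).1 (exact_eps Q)
  | n + 1 => exact Q.exact_succ n

include w in
theorem aug_wg : (eps Q ≫ f) ≫ g = 0 := by
  rw [Category.assoc, w, comp_zero]

include w in
theorem augC_w : (augC f Q).d 1 0 ≫ g = 0 := aug_wg f g w Q

include h in
theorem augC_exact0 :
    (ShortComplex.mk ((augC f Q).d 1 0) g (augC_w f g w Q)).Exact := by
  have : Epi (eps Q) := epi_eps Q
  let α : ShortComplex.mk (eps Q ≫ f) g (augC_w f g w Q) ⟶ ShortComplex.mk f g w :=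
    { τ₁ := eps Q
      τ₂ := 𝟙 _
      τ₃ := 𝟙 _ }
  exact (ShortComplex.exact_iff_of_epi_of_isIso_of_mono α).2 h.exact

theorem quasiIso_toSingle (X : ChainComplex C ℕ) (g : X.X 0 ⟶ M) (w : X.d 1 0 ≫ g = 0)
    (hs : ∀ n, X.ExactAt (n + 1)) (he : (ShortComplex.mk (X.d 1 0) g w).Exact) (hg : Epi g) :
    QuasiIso ((ChainComplex.toSingle₀Equiv X M).symm ⟨g, w⟩) :=
  ⟨fun n => by
    cases n
    · rw [ChainComplex.quasiIsoAt₀_iff, ShortComplex.quasiIso_iff_of_zeros']
      · refine (ShortComplex.exact_and_epi_g_iff_of_iso ?_).2 ⟨he, hg⟩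
        exact ShortComplex.isoMk (Iso.refl _) (Iso.refl _) (Iso.refl _)
          ((Category.id_comp (X.d 1 0)).trans (Category.comp_id (X.d 1 0)).symm)
          (((Category.id_comp g).trans
            (ChainComplex.toSingle₀Equiv_symm_apply_f_zero g w).symm).trans
              (Category.comp_id _).symm)
      · exact X.shape 0 0 (by simp)
      all_goals rfl
    · rw [quasiIsoAt_iff_exactAt']
      · apply hs
      · apply ChainComplex.exactAt_succ_single_obj⟩

end Splice

section AtoB

variable (F : C → Prop)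

/-- From spliced short exact sequences to a projective resolution. -/
theorem hasRes_of_fres (hp : ∀ X, F X → Projective X) (h0 : ∀ X, IsZero X → F X) {n : ℕ} {M : C}
    (h : FRes F n M) : HasRes F M := by
  induction h with
  | @zero M hM =>
    have : Projective M := hp M hM
    refine ⟨ProjectiveResolution.self M, ⟨0, fun i hi => ?_⟩, fun i => ?_⟩
    · exact HomologicalComplex.isZero_single_obj_X _ _ _ _ (by omega)
    · cases i with
      | zero => exact hM
      | succ i => exact h0 _ (HomologicalComplex.isZero_single_obj_X _ _ _ _ (by omega))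
  | @succ n K P M f g w h hP hK ih =>
    obtain ⟨Q, ⟨N, hN⟩, hQ⟩ := ih
    have hF : ∀ i, F ((augC f Q).X i) := by
      intro i
      cases i with
      | zero => exact hP
      | succ i => exact hQ i
    refine ⟨{ complex := augC f Q
              projective := fun i => hp _ (hF i)
              π := (ChainComplex.toSingle₀Equiv _ _).symm ⟨g, augC_w f g w Q⟩
              quasiIso := quasiIso_toSingle (augC f Q) g (augC_w f g w Q)
                (augC_exactAt f g w h Q) (augC_exact0 f g w h Q) h.epi_g }, ⟨N + 1, fun i hi => ?_⟩, hF⟩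
    cases i with
    | zero => omega
    | succ i => exact hN i (by omega)

/-- The short exact sequence of kernels. -/
theorem shortExact_ker {A B D : C} (f : A ⟶ B) (g : B ⟶ D) (w : f ≫ g = 0)
    (h : (ShortComplex.mk f g w).Exact) :
    (ShortComplex.mk (kernel.ι f) (kernel.lift g f w)
      (by rw [← cancel_mono (kernel.ι g), Category.assoc, kernel.lift_ι, kernel.condition,
        zero_comp])).ShortExact := by
  refine ShortComplex.ShortExact.mk' ?_ inferInstance ?_
  · let α : ShortComplex.mk (kernel.ι f) (kernel.lift g f w) (by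
        rw [← cancel_mono (kernel.ι g), Category.assoc, kernel.lift_ι, kernel.condition,
          zero_comp]) ⟶ ShortComplex.mk (kernel.ι f) f (kernel.condition f) :=
      { τ₁ := 𝟙 _
        τ₂ := 𝟙 _
        τ₃ := kernel.ι g }
    refine (ShortComplex.exact_iff_of_epi_of_isIso_of_mono α).2 ?_
    exact ShortComplex.exact_of_f_is_kernel _ (kernelIsKernel f)
  · exact (ShortComplex.exact_iff_epi_kernel_lift (ShortComplex.mk f g w)).1 h

theorem fres_kernels (h0 : ∀ X, IsZero X → F X) {M : C} (P : ProjectiveResolution M)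
    (N : ℕ) (hN : ∀ i : ℕ, N < i → IsZero (P.complex.X i)) (hF : ∀ i, F (P.complex.X i)) (j : ℕ) :
    ∀ i : ℕ, N ≤ i + j → ∃ n, FRes F n (kernel (P.complex.d (i + 1) i)) := by
  induction j with
  | zero =>
    intro i hi
    refine ⟨0, FRes.zero (h0 _ ?_)⟩
    exact IsZero.of_mono (kernel.ι (P.complex.d (i + 1) i)) (hN (i + 1) (by omega))
  | succ j ih =>
    intro i hi
    obtain ⟨n, hn⟩ := ih (i + 1) (by omega)
    exact ⟨n + 1, FRes.succ _ _ _ (shortExact_ker _ _ _ (P.exact_succ i)) (hF _) hn⟩

/-- From a finite projective resolution to spliced short exact sequences. -/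
theorem fres_of_hasRes (h0 : ∀ X, IsZero X → F X) {M : C} (h : HasRes F M) : ∃ n, FRes F n M := by
  obtain ⟨P, ⟨N, hN⟩, hF⟩ := h
  obtain ⟨n, hn⟩ := fres_kernels F h0 P N hN hF N 0 (by omega)
  have : Epi (eps P) := epi_eps P
  refine ⟨n + 2, FRes.succ (kernel.ι (eps P)) (eps P) (kernel.condition _) ?_ (hF 0)
    (FRes.succ _ _ _ (shortExact_ker _ _ _ (exact_eps P)) (hF 1) hn)⟩
  exact ShortComplex.ShortExact.mk' (ShortComplex.exact_of_f_is_kernel _ (kernelIsKernel _))
    inferInstance this

end AtoB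

section Stab

variable (P F : C → Prop)

/-- The short exact sequence of a biproduct. -/
theorem shortExact_inr (X Y : C) :
    (ShortComplex.mk (biprod.inr : Y ⟶ X ⊞ Y) biprod.fst (by simp)).ShortExact := by
  refine ShortComplex.Splitting.shortExact
    { r := biprod.snd
      s := biprod.inl
      f_r := by simp
      s_g := by simp
      id := ?_ }
  rw [add_comm]
  exact biprod.total

theorem shortExact_add {K X M : C} (f : K ⟶ X) (g : X ⟶ M) (w : f ≫ g = 0)
    (h : (ShortComplex.mk f g w).ShortExact) (Y : C) :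
    (ShortComplex.mk (biprod.map f (𝟙 Y)) (biprod.fst ≫ g : X ⊞ Y ⟶ M)
      (by rw [biprod.map_fst_assoc, w, comp_zero])).ShortExact := by
  have h1 : Mono f := h.mono_f
  have h2 : Epi g := h.epi_g
  refine ShortComplex.ShortExact.mk' ?_ (inferInstanceAs (Mono (biprod.map f (𝟙 Y))))
    (inferInstanceAs (Epi ((biprod.fst : X ⊞ Y ⟶ X) ≫ g)))
  rw [ShortComplex.exact_iff_exact_up_to_refinements]
  intro A x hx
  have hx' : (x ≫ (biprod.fst : X ⊞ Y ⟶ X)) ≫ g = 0 := by
    rw [Category.assoc]; exact hx
  have hm : Mono (ShortComplex.mk f g w).f := h1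
  refine ⟨A, 𝟙 A, inferInstance, biprod.lift (h.exact.lift (x ≫ biprod.fst) hx')
    (x ≫ biprod.snd), ?_⟩
  have h3 := h.exact.lift_f (x ≫ biprod.fst) hx'
  change 𝟙 A ≫ x = biprod.lift (h.exact.lift (x ≫ biprod.fst) hx') (x ≫ biprod.snd) ≫
    biprod.map f (𝟙 Y)
  apply biprod.hom_ext
  · simp only [Category.id_comp, Category.assoc, biprod.map_fst, biprod.lift_fst_assoc]
    exact h3.symm
  · simp

theorem shortExact_add' {K X M : C} (f : K ⟶ X) (g : X ⟶ M) (w : f ≫ g = 0)
    (h : (ShortComplex.mk f g w).ShortExact) (Y : C) :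
    (ShortComplex.mk (f ≫ biprod.inl : K ⟶ X ⊞ Y) (biprod.map g (𝟙 Y))
      (by rw [Category.assoc, biprod.inl_map, ← Category.assoc, w, zero_comp])).ShortExact := by
  have h1 : Mono f := h.mono_f
  have h2 : Epi g := h.epi_g
  refine ShortComplex.ShortExact.mk' ?_ (inferInstanceAs (Mono (f ≫ (biprod.inl : X ⟶ X ⊞ Y))))
    (inferInstanceAs (Epi (biprod.map g (𝟙 Y))))
  rw [ShortComplex.exact_iff_exact_up_to_refinements]
  intro A x hx
  have hxx : x ≫ biprod.map g (𝟙 Y) = 0 := hx
  have hx' : (x ≫ (biprod.fst : X ⊞ Y ⟶ X)) ≫ g = 0 := by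
    have := congrArg (· ≫ biprod.fst) hxx
    simpa using this
  have hy : x ≫ (biprod.snd : X ⊞ Y ⟶ Y) = 0 := by
    have := congrArg (· ≫ biprod.snd) hxx
    simpa using this
  have hm : Mono (ShortComplex.mk f g w).f := h1
  refine ⟨A, 𝟙 A, inferInstance, h.exact.lift (x ≫ biprod.fst) hx', ?_⟩
  have h3 : h.exact.lift (x ≫ biprod.fst) hx' ≫ f = x ≫ biprod.fst :=
    h.exact.lift_f (x ≫ biprod.fst) hx'
  have h4 : x = (h.exact.lift (x ≫ biprod.fst) hx' ≫ f) ≫ biprod.inl := by
    rw [h3]
    apply biprod.hom_ext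
    · simp
    · simp [hy]
  exact ((Category.id_comp x).trans h4).trans (Category.assoc _ _ _)

variable {P F}

theorem FRes.add (hPF : ∀ X Y, P X → F Y → P (X ⊞ Y)) {n : ℕ} {K : C} (h : FRes P n K) {Y : C}
    (hY : F Y) : FRes P n (K ⊞ Y) := by
  cases h with
  | zero h => exact FRes.zero (hPF _ _ h hY)
  | succ f g w h hP hK => exact FRes.succ _ _ _ (shortExact_add' f g w h Y) (hPF _ _ hP hY) hK

/-- Stabilization: projective terms can be replaced by free terms. -/
theorem FRes.stab (hPF : ∀ X Y, P X → F Y → P (X ⊞ Y))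
    (hs : ∀ X, P X → ∃ Y, F Y ∧ F (X ⊞ Y)) {n : ℕ} : ∀ {K : C}, FRes P n K → FRes F (n + 1) K := by
  induction n with
  | zero =>
    intro K h
    cases h with
    | zero h =>
      obtain ⟨Y, hY, hXY⟩ := hs _ h
      exact FRes.succ _ _ _ (shortExact_inr K Y) hXY (FRes.zero hY)
  | succ n ih =>
    intro K h
    cases h with
    | succ f g w h hP hK =>
      obtain ⟨Y, hY, hXY⟩ := hs _ hP
      exact FRes.succ _ _ _ (shortExact_add f g w h Y) hXY (ih (FRes.add hPF hK hY))

/-- An object with a finite resolution by objects of the class `P` of projective objects has a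
finite resolution by objects of the class `F`, if every object of `P` becomes an object of `F`
after adding an object of `F`. -/
theorem HasRes.stab (hPF : ∀ X Y, P X → F Y → P (X ⊞ Y)) (hP0 : ∀ X, IsZero X → P X)
    (hF0 : ∀ X, IsZero X → F X) (hFp : ∀ X, F X → Projective X)
    (hs : ∀ X, P X → ∃ Y, F Y ∧ F (X ⊞ Y)) {M : C} (h : HasRes P M) : HasRes F M := by
  obtain ⟨n, hn⟩ := fres_of_hasRes P hP0 h
  exact hasRes_of_fres F hFp hF0 (FRes.stab hPF hs hn)

end Stab

end Pool.Agent.TypeFF
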