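import Pool.Agent.Lib.MP_95f78b_al.Res
import Pool.Agent.Lib.MP_8f66f0_al_Wald.GrDefs

/-! Type FP and type FF: representations and modules over the group ring. -/

set_option autoImplicit false

open CategoryTheory CategoryTheory.Limits

namespace Pool.Agent.TypeFF

variable {G : Type} [Group G]

/-- The module over the group ring of a representation. -/
noncomputable abbrev Ob (X : Rep.{0} ℤ G) : ModuleCat.{0} (MonoidAlgebra ℤ G) :=
  (Rep.toModuleMonoidAlgebra (k := ℤ) (G := G)).obj X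

/-- Retracts of finitely generated free modules. -/
def PP (X : Rep.{0} ℤ G) : Prop :=
  ∃ n : ℕ, ∃ f : Quiver.Hom X (Rep.free ℤ G (Fin n)),
            ∃ g : Quiver.Hom (Rep.free ℤ G (Fin n)) X,
              CategoryTheory.CategoryStruct.comp f g =
                CategoryTheory.CategoryStruct.id X

/-- Finitely generated free modules. -/
def FF (X : Rep.{0} ℤ G) : Prop :=
  ∃ n : ℕ, Nonempty (CategoryTheory.Iso X (Rep.free ℤ G (Fin n)))

noncomputable def obFree (n : ℕ) :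
    Ob (Rep.free ℤ G (Fin n)) ≃ₗ[MonoidAlgebra ℤ G] (Fin n → MonoidAlgebra ℤ G) :=
  (Representation.freeAsModuleBasis ℤ G (Fin n)).equivFun

noncomputable def obIso {X Y : Rep.{0} ℤ G} (e : X ≅ Y) :
    Ob X ≃ₗ[MonoidAlgebra ℤ G] Ob Y :=
  ((Rep.toModuleMonoidAlgebra (k := ℤ) (G := G)).mapIso e).toLinearEquiv

noncomputable def isoOb {X Y : Rep.{0} ℤ G} (e : Ob X ≃ₗ[MonoidAlgebra ℤ G] Ob Y) :
    X ≅ Y :=
  (Rep.toModuleMonoidAlgebra (k := ℤ) (G := G)).preimageIso e.toModuleIso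

noncomputable def obAdd (X Y : Rep.{0} ℤ G) :
    Ob (X ⊞ Y) ≃ₗ[MonoidAlgebra ℤ G] (Ob X × Ob Y) := by
  haveI : PreservesBinaryBiproduct X Y (Rep.toModuleMonoidAlgebra (k := ℤ) (G := G)) :=
    preservesBinaryBiproduct_of_preservesBinaryProduct _
  exact (((Rep.toModuleMonoidAlgebra (k := ℤ) (G := G)).mapBiprod X Y).toLinearEquiv).trans
    (ModuleCat.biprodIsoProd (Ob X) (Ob Y)).toLinearEquiv

theorem ff_iff (X : Rep.{0} ℤ G) :
    FF X ↔ ∃ n : ℕ, Nonempty (Ob X ≃ₗ[MonoidAlgebra ℤ G] (Fin n → MonoidAlgebra ℤ G)) := by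
  constructor
  · rintro ⟨n, ⟨e⟩⟩
    exact ⟨n, ⟨(obIso e).trans (obFree n)⟩⟩
  · rintro ⟨n, ⟨e⟩⟩
    exact ⟨n, ⟨isoOb (e.trans (obFree n).symm)⟩⟩

theorem ff_pp {X : Rep.{0} ℤ G} (h : FF X) : PP X := by
  obtain ⟨n, ⟨e⟩⟩ := h
  exact ⟨n, e.hom, e.inv, e.hom_inv_id⟩

theorem ff_proj {X : Rep.{0} ℤ G} (h : FF X) : Projective X := by
  obtain ⟨n, ⟨e⟩⟩ := h
  exact Projective.of_iso e.symm inferInstance

theorem pp_of_retract {X Y : Rep.{0} ℤ G} (f : X ⟶ Y) (g : Y ⟶ X) (h : f ≫ g = 𝟙 X)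
    (hY : FF Y) : PP X := by
  obtain ⟨n, ⟨e⟩⟩ := hY
  exact ⟨n, f ≫ e.hom, e.inv ≫ g, by simp [h]⟩

theorem ff_add {X Y : Rep.{0} ℤ G} (hX : FF X) (hY : FF Y) : FF (X ⊞ Y) := by
  rw [ff_iff] at *
  obtain ⟨n, ⟨e⟩⟩ := hX
  obtain ⟨m, ⟨e'⟩⟩ := hY
  let e3 : ((Fin n → MonoidAlgebra ℤ G) × (Fin m → MonoidAlgebra ℤ G)) ≃ₗ[MonoidAlgebra ℤ G]
      (Fin (n + m) → MonoidAlgebra ℤ G) :=
    (LinearEquiv.sumArrowLequivProdArrow (Fin n) (Fin m) (MonoidAlgebra ℤ G)
      (MonoidAlgebra ℤ G)).symm.trans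
        (LinearEquiv.funCongrLeft (MonoidAlgebra ℤ G) (MonoidAlgebra ℤ G)
          (finSumFinEquiv (m := n) (n := m)).symm)
  exact ⟨n + m, ⟨((obAdd X Y).trans (LinearEquiv.prodCongr e e')).trans e3⟩⟩

theorem pp_add {X Y : Rep.{0} ℤ G} (hX : PP X) (hY : PP Y) : PP (X ⊞ Y) := by
  obtain ⟨n, f, g, h⟩ := hX
  obtain ⟨m, f', g', h'⟩ := hY
  refine pp_of_retract (biprod.map f f') (biprod.map g g') ?_
    (ff_add ⟨n, ⟨Iso.refl _⟩⟩ ⟨m, ⟨Iso.refl _⟩⟩)
  apply biprod.hom_ext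
  · rw [Category.assoc, biprod.map_fst, biprod.map_fst_assoc, h, Category.comp_id,
      Category.id_comp]
  · rw [Category.assoc, biprod.map_snd, biprod.map_snd_assoc, h', Category.comp_id,
      Category.id_comp]

theorem ff_zero {X : Rep.{0} ℤ G} (h : IsZero X) : FF X := by
  rw [ff_iff]
  have h1 : IsZero (Ob X) := Functor.map_isZero (Rep.toModuleMonoidAlgebra (k := ℤ) (G := G)) h
  have h2 : Subsingleton (Ob X) := ModuleCat.subsingleton_of_isZero h1
  exact ⟨0, ⟨LinearEquiv.ofSubsingleton _ _⟩⟩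

theorem pp_finite {X : Rep.{0} ℤ G} (h : PP X) :
    Module.Finite (MonoidAlgebra ℤ G) (Ob X) ∧ Module.Projective (MonoidAlgebra ℤ G) (Ob X) := by
  obtain ⟨n, f, g, h⟩ := h
  let F := Rep.toModuleMonoidAlgebra (k := ℤ) (G := G)
  have h1 : F.map f ≫ F.map g = 𝟙 _ := by rw [← F.map_comp, h, F.map_id]
  have h2 : (F.map g).hom ∘ₗ (F.map f).hom = LinearMap.id := by
    have := congrArg ModuleCat.Hom.hom h1
    exact this
  have h3 : Module.Finite (MonoidAlgebra ℤ G) (Ob (Rep.free ℤ G (Fin n))) :=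
    Module.Finite.equiv (obFree n).symm
  have h4 : Module.Projective (MonoidAlgebra ℤ G) (Ob (Rep.free ℤ G (Fin n))) :=
    Module.Projective.of_equiv (obFree n).symm
  refine ⟨?_, ?_⟩
  · refine Module.Finite.of_surjective (F.map g).hom ?_
    intro x
    exact ⟨(F.map f).hom x, LinearMap.congr_fun h2 x⟩
  · exact Module.Projective.of_split (F.map f).hom (F.map g).hom h2

/-- If all finitely generated projective modules over the group ring are stably free, then a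
retract of a finitely generated free module becomes free after adding a finitely generated free
module. -/
theorem pp_stab (hG : Wald.ProjSF (MonoidAlgebra ℤ G)) {X : Rep.{0} ℤ G} (h : PP X) :
    ∃ Y : Rep.{0} ℤ G, FF Y ∧ FF (X ⊞ Y) := by
  obtain ⟨h1, h2⟩ := pp_finite h
  obtain ⟨a, b, ⟨e⟩⟩ := hG (Ob X)
  refine ⟨Rep.free ℤ G (Fin a), ⟨a, ⟨Iso.refl _⟩⟩, ?_⟩
  rw [ff_iff]
  exact ⟨b, ⟨(obAdd X _).trans ((LinearEquiv.prodCongr (LinearEquiv.refl _ _) (obFree a)).trans e)⟩⟩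

/-- A representation with a finite resolution by finitely generated projective modules has a
finite resolution by finitely generated free modules, if all finitely generated projective modules
over the group ring are stably free. -/
theorem hasRes_ff (hG : Wald.ProjSF (MonoidAlgebra ℤ G)) {M : Rep.{0} ℤ G} (h : HasRes PP M) :
    HasRes FF M :=
  HasRes.stab (P := PP) (F := FF) (fun _ _ hX hY => pp_add hX (ff_pp hY))
    (fun _ hX => ff_pp (ff_zero hX)) (fun _ hX => ff_zero hX) (fun _ hX => ff_proj hX)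
    (fun _ hX => pp_stab hG hX) h

end Pool.Agent.TypeFF
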