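import Mathlib

/-!
# Finite resolutions by stably free objects

In an abelian category with a family `Fr n` of projective objects with `Fr n ⊞ Fr m ≅ Fr (n + m)`, a
finite projective resolution by stably free objects can be replaced by a finite resolution by
objects `Fr n`.
-/

set_option autoImplicit false

namespace Pool.Agent.FF

open CategoryTheory CategoryTheory.Limits

universe v u

variable {C : Type u} [Category.{v} C] [Abelian C]

/-- The two-term complex `A = A` in the degrees `i + 1` and `i`. -/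
noncomputable abbrev dbl (A : C) (i : ℕ) : ChainComplex C ℕ :=
  HomologicalComplex.double (𝟙 A) (show (ComplexShape.down ℕ).Rel (i + 1) i from rfl)

theorem dbl_exact (A : C) (i j : ℕ) : (dbl A i).ExactAt j := by
  by_cases h1 : j = i + 1
  · subst h1
    rw [HomologicalComplex.exactAt_iff' _ (i + 2) (i + 1) i (by simp) (by simp)]
    rw [ShortComplex.exact_iff_mono]
    · change Mono ((dbl A i).d (i + 1) i)
      rw [HomologicalComplex.double_d _ _ (by omega)]
      infer_instance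
    · exact HomologicalComplex.double_d_eq_zero₀ (𝟙 A)
        (show (ComplexShape.down ℕ).Rel (i + 1) i from rfl) _ _ (by omega)
  · by_cases h2 : j = i
    · subst h2
      rw [HomologicalComplex.exactAt_iff' _ (j + 1) j ((ComplexShape.down ℕ).next j) (by simp) rfl]
      rw [ShortComplex.exact_iff_epi]
      · change Epi ((dbl A j).d (j + 1) j)
        rw [HomologicalComplex.double_d _ _ (by omega)]
        infer_instance
      · exact HomologicalComplex.double_d_eq_zero₀ (𝟙 A)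
          (show (ComplexShape.down ℕ).Rel (j + 1) j from rfl) _ _ (by omega)
    · exact HomologicalComplex.ExactAt.of_isZero
        (HomologicalComplex.isZero_double_X _ _ _ h1 h2)

theorem quasiIso_fst (K D : ChainComplex C ℕ) (hD : ∀ j, D.ExactAt j) :
    QuasiIso (biprod.fst : K ⊞ D ⟶ K) := by
  constructor
  intro j
  rw [quasiIsoAt_iff_isIso_homologyMap]
  refine ⟨HomologicalComplex.homologyMap biprod.inl j, ?_, ?_⟩
  · rw [← HomologicalComplex.homologyMap_comp]
    have h : (biprod.fst : K ⊞ D ⟶ K) ≫ biprod.inl = 𝟙 _ - biprod.snd ≫ biprod.inr := by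
      rw [← biprod.total]
      abel
    have h0 : HomologicalComplex.homologyMap (biprod.snd : K ⊞ D ⟶ D) j = 0 :=
      (hD j).isZero_homology.eq_of_tgt _ _
    rw [h, HomologicalComplex.homologyMap_sub, HomologicalComplex.homologyMap_id,
      HomologicalComplex.homologyMap_comp, h0, zero_comp, sub_zero]
  · rw [← HomologicalComplex.homologyMap_comp, biprod.inl_fst, HomologicalComplex.homologyMap_id]

/-- Adding an acyclic complex of projective objects to a projective resolution. -/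
theorem add_res {Z : C} (P : ProjectiveResolution Z) (D : ChainComplex C ℕ)
    (hD : ∀ j, D.ExactAt j) (hP : ∀ j, Projective (D.X j)) :
    ∃ P' : ProjectiveResolution Z, ∀ j, Nonempty (P'.complex.X j ≅ P.complex.X j ⊞ D.X j) := by
  have := quasiIso_fst P.complex D hD
  refine ⟨{ complex := P.complex ⊞ D
            projective := fun j => ?_
            π := biprod.fst ≫ P.π
            quasiIso := inferInstance }, fun j => ⟨HomologicalComplex.biprodXIso _ _ j⟩⟩
  have := P.projective j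
  have := hP j
  exact Projective.of_iso (HomologicalComplex.biprodXIso P.complex D j).symm inferInstance

/-- Stably free objects. -/
def SF (Fr : ℕ → C) (X : C) : Prop := ∃ a b, Nonempty (X ⊞ Fr a ≅ Fr b)

/-- Free objects. -/
def FrO (Fr : ℕ → C) (X : C) : Prop := ∃ n, Nonempty (X ≅ Fr n)

theorem sf_iso (Fr : ℕ → C) {X Y : C} (e : X ≅ Y) (h : SF Fr X) : SF Fr Y := by
  obtain ⟨a, b, ⟨f⟩⟩ := h
  exact ⟨a, b, ⟨biprod.mapIso e.symm (Iso.refl _) ≪≫ f⟩⟩

theorem fr_iso (Fr : ℕ → C) {X Y : C} (e : X ≅ Y) (h : FrO Fr X) : FrO Fr Y := by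
  obtain ⟨n, ⟨f⟩⟩ := h
  exact ⟨n, ⟨e.symm ≪≫ f⟩⟩

theorem fr_add (Fr : ℕ → C) (hadd : ∀ n m, Nonempty (Fr n ⊞ Fr m ≅ Fr (n + m))) {X : C} (a : ℕ)
    (h : FrO Fr X) : FrO Fr (X ⊞ Fr a) := by
  obtain ⟨n, ⟨f⟩⟩ := h
  obtain ⟨g⟩ := hadd n a
  exact ⟨n + a, ⟨biprod.mapIso f (Iso.refl _) ≪≫ g⟩⟩

/-- Associativity and commutativity. -/
noncomputable def swapIso (X A B : C) : (X ⊞ A) ⊞ B ≅ (X ⊞ B) ⊞ A :=
  biprod.associator X A B ≪≫ biprod.mapIso (Iso.refl X) (biprod.braiding A B) ≪≫
    (biprod.associator X B A).symm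

theorem sf_add (Fr : ℕ → C) (hadd : ∀ n m, Nonempty (Fr n ⊞ Fr m ≅ Fr (n + m))) {X : C} (a : ℕ)
    (h : SF Fr X) : SF Fr (X ⊞ Fr a) := by
  obtain ⟨n, m, ⟨f⟩⟩ := h
  obtain ⟨g⟩ := hadd m a
  exact ⟨n, m + a, ⟨swapIso _ _ _ ≪≫ biprod.mapIso f (Iso.refl _) ≪≫ g⟩⟩

/-- Adding a zero object. -/
noncomputable def addZero (X : C) {Y : C} (h : IsZero Y) : X ⊞ Y ≅ X where
  hom := biprod.fst
  inv := biprod.inl
  hom_inv_id := by
    rw [← sub_eq_zero, ← biprod.total]
    have : (biprod.snd : X ⊞ Y ⟶ Y) = 0 := h.eq_of_tgt _ _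
    rw [this]
    simp
  inv_hom_id := by simp

theorem step {Z : C} (Fr : ℕ → C) (hp : ∀ n, Projective (Fr n))
    (hadd : ∀ n m, Nonempty (Fr n ⊞ Fr m ≅ Fr (n + m))) (N : ℕ) (P : ProjectiveResolution Z)
    (h0 : ∀ i, N < i → IsZero (P.complex.X i)) (hz : ∃ n, IsZero (Fr n))
    (hs : ∀ i, SF Fr (P.complex.X i)) (k : ℕ) (hk : k ≤ N + 1) :
    ∃ P' : ProjectiveResolution Z, (∀ i, i < k ∨ N < i → FrO Fr (P'.complex.X i)) ∧
      (∀ i, SF Fr (P'.complex.X i)) ∧ ∀ i, N + 1 < i → IsZero (P'.complex.X i) := by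
  induction k with
  | zero =>
    refine ⟨P, fun i hi => ?_, hs, fun i hi => h0 i (by omega)⟩
    obtain ⟨n, hn⟩ := hz
    exact ⟨n, ⟨(h0 i (by omega)).iso hn⟩⟩
  | succ k ih =>
    obtain ⟨P', h1, h2, h3⟩ := ih (by omega)
    obtain ⟨a, b, ⟨e⟩⟩ := h2 k
    have hX0 : (dbl (Fr a) k).X (k + 1) ≅ Fr a := HomologicalComplex.doubleXIso₀ _ _
    have hX1 : (dbl (Fr a) k).X k ≅ Fr a := HomologicalComplex.doubleXIso₁ _ _ (by omega)
    have hX2 : ∀ j, j ≠ k + 1 → j ≠ k → IsZero ((dbl (Fr a) k).X j) := fun j hj hj' =>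
      HomologicalComplex.isZero_double_X _ _ _ hj hj'
    have hpr : ∀ j, Projective ((dbl (Fr a) k).X j) := by
      intro j
      by_cases h4 : j = k + 1
      · subst h4
        have := hp a
        exact Projective.of_iso hX0.symm inferInstance
      · by_cases h5 : j = k
        · subst h5
          have := hp a
          exact Projective.of_iso hX1.symm inferInstance
        · exact (hX2 j h4 h5).projective
    obtain ⟨P'', hP''⟩ := add_res P' (dbl (Fr a) k) (dbl_exact _ _) hpr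
    refine ⟨P'', fun i hi => ?_, fun i => ?_, fun i hi => ?_⟩
    · obtain ⟨f⟩ := hP'' i
      refine fr_iso Fr f.symm ?_
      by_cases h5 : i = k
      · subst h5
        exact ⟨b, ⟨biprod.mapIso (Iso.refl _) hX1 ≪≫ e⟩⟩
      · have h6 : FrO Fr (P'.complex.X i) := h1 i (by omega)
        by_cases h4 : i = k + 1
        · subst h4
          exact fr_iso Fr (biprod.mapIso (Iso.refl _) hX0.symm) (fr_add Fr hadd a h6)
        · exact fr_iso Fr (addZero _ (hX2 i h4 h5)).symm h6
    · obtain ⟨f⟩ := hP'' i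
      refine sf_iso Fr f.symm ?_
      by_cases h4 : i = k + 1
      · subst h4
        exact sf_iso Fr (biprod.mapIso (Iso.refl _) hX0.symm) (sf_add Fr hadd a (h2 _))
      · by_cases h5 : i = k
        · subst h5
          exact sf_iso Fr (biprod.mapIso (Iso.refl _) hX1.symm) (sf_add Fr hadd a (h2 _))
        · exact sf_iso Fr (addZero _ (hX2 i h4 h5)).symm (h2 i)
    · obtain ⟨f⟩ := hP'' i
      exact (h3 i hi).of_iso (f ≪≫ addZero _ (hX2 i (by omega) (by omega)))

theorem free_of_sf {Z : C} (Fr : ℕ → C) (hp : ∀ n, Projective (Fr n))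
    (hadd : ∀ n m, Nonempty (Fr n ⊞ Fr m ≅ Fr (n + m))) (hz : ∃ n, IsZero (Fr n)) (N : ℕ)
    (P : ProjectiveResolution Z) (h0 : ∀ i, N < i → IsZero (P.complex.X i))
    (hs : ∀ i, SF Fr (P.complex.X i)) :
    ∃ P' : ProjectiveResolution Z, (∃ N' : ℕ, ∀ i, N' < i → IsZero (P'.complex.X i)) ∧
      ∀ i, ∃ n, Nonempty (P'.complex.X i ≅ Fr n) := by
  obtain ⟨P', h1, h2, h3⟩ := step Fr hp hadd N P h0 hz hs (N + 1) le_rfl
  exact ⟨P', ⟨N + 1, h3⟩, fun i => h1 i (by omega)⟩

end Pool.Agent.FF
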