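import Mathlib
import Pool.Agent.Lib.MP_8f66f0_al_WaldP.CdSub
import Pool.Agent.Lib.MP_95f78b_al.Cd

/-! Groups of finite cohomological dimension are torsion free. -/

set_option autoImplicit false

namespace Pool.Agent.TypeFF.Tf

open CategoryTheory Pool.Agent.Wald

section

theorem pd_ker {R : Type} [Ring R] {P M : Type} [AddCommGroup P] [Module R P]
    [AddCommGroup M] [Module R M] [Module.Projective R P] (f : P →ₗ[R] M)
    (hf : Function.Surjective f) (n : ℕ)
    (hM : HasProjectiveDimensionLT (ModuleCat.of R M) (n + 2)) :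
    HasProjectiveDimensionLT (ModuleCat.of R (LinearMap.ker f)) (n + 1) := by
  have h1 := LinearMap.shortExact_shortComplexKer hf
  have hP : Projective (ModuleCat.of R P) := (IsProjective.iff_projective P).mp inferInstance
  have h2 : HasProjectiveDimensionLT (ModuleCat.of R P) (n + 1) :=
    hasProjectiveDimensionLT_of_ge _ 1 _ (by omega)
  exact h1.hasProjectiveDimensionLT_X₁ (n + 1) h2 hM

variable {C : Type} [Group C]

/-- The trivial module. -/
abbrev TM (C : Type) [Group C] : Type := (Representation.trivial ℤ C ℤ).asModule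

/-- The sum of the coefficients. -/
noncomputable def aug (a : MonoidAlgebra ℤ C) : ℤ :=
  (Representation.trivial ℤ C ℤ).asAlgebraHom a 1

theorem aug_single (x : C) (r : ℤ) : aug (MonoidAlgebra.single x r) = r := by
  rw [aug, Representation.asAlgebraHom_single, LinearMap.smul_apply, Representation.trivial_apply,
    smul_eq_mul, mul_one]

theorem aug_add (a b : MonoidAlgebra ℤ C) : aug (a + b) = aug a + aug b := by
  rw [aug, map_add, LinearMap.add_apply]
  rfl

theorem aug_zero : aug (0 : MonoidAlgebra ℤ C) = 0 := by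
  rw [aug, map_zero, LinearMap.zero_apply]

/-- The unit of the trivial module. -/
noncomputable def t1 (C : Type) [Group C] : TM C :=
  (Representation.trivial ℤ C ℤ).asModuleEquiv.symm 1

theorem smul_tm (a : MonoidAlgebra ℤ C) (t : TM C) :
    (Representation.trivial ℤ C ℤ).asModuleEquiv (a • t) =
      aug a * (Representation.trivial ℤ C ℤ).asModuleEquiv t := by
  rw [Representation.asModuleEquiv_map_smul]
  induction a using MonoidAlgebra.induction_linear with
  | zero => rw [map_zero, aug_zero, zero_mul, LinearMap.zero_apply]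
  | add x y hx hy => rw [map_add, LinearMap.add_apply, hx, hy, aug_add, add_mul]
  | single g n =>
    rw [Representation.asAlgebraHom_single, LinearMap.smul_apply, Representation.trivial_apply,
      aug_single, smul_eq_mul]

/-- The augmentation. -/
noncomputable def epsT (C : Type) [Group C] : MonoidAlgebra ℤ C →ₗ[MonoidAlgebra ℤ C] TM C :=
  LinearMap.toSpanSingleton (MonoidAlgebra ℤ C) (TM C) (t1 C)

theorem epsT_val (a : MonoidAlgebra ℤ C) :
    (Representation.trivial ℤ C ℤ).asModuleEquiv (epsT C a) = aug a := by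
  change (Representation.trivial ℤ C ℤ).asModuleEquiv (a • t1 C) = aug a
  rw [smul_tm, t1, LinearEquiv.apply_symm_apply, mul_one]

theorem epsT_surj : Function.Surjective (epsT C) := by
  intro t
  refine ⟨MonoidAlgebra.single 1 ((Representation.trivial ℤ C ℤ).asModuleEquiv t), ?_⟩
  apply (Representation.trivial ℤ C ℤ).asModuleEquiv.injective
  rw [epsT_val, aug_single]

theorem mem_ker_eps (a : MonoidAlgebra ℤ C) : a ∈ LinearMap.ker (epsT C) ↔ aug a = 0 := by
  rw [LinearMap.mem_ker, ← epsT_val]
  constructor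
  · intro h
    rw [h, map_zero]
  · intro h
    apply (Representation.trivial ℤ C ℤ).asModuleEquiv.injective
    rw [h, map_zero]

variable (c : C) (hc : ∀ x : C, ∃ k : ℕ, c ^ k = x)

/-- Multiplication by `1 - c` on the right. -/
noncomputable def mulR : MonoidAlgebra ℤ C →ₗ[MonoidAlgebra ℤ C] MonoidAlgebra ℤ C :=
  LinearMap.toSpanSingleton (MonoidAlgebra ℤ C) (MonoidAlgebra ℤ C)
    (1 - MonoidAlgebra.single c 1)

theorem mulR_apply (a : MonoidAlgebra ℤ C) : mulR c a = a * (1 - MonoidAlgebra.single c 1) := rfl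

include hc in
theorem aug_range (a : MonoidAlgebra ℤ C) :
    ∃ b, b * (1 - MonoidAlgebra.single c 1) = a - MonoidAlgebra.single 1 (aug a) := by
  induction a using MonoidAlgebra.induction_linear with
  | zero => exact ⟨0, by rw [zero_mul, aug_zero, MonoidAlgebra.single_zero, sub_zero]⟩
  | add x y hx hy =>
    obtain ⟨b, hb⟩ := hx
    obtain ⟨b', hb'⟩ := hy
    refine ⟨b + b', ?_⟩
    rw [add_mul, hb, hb', aug_add, MonoidAlgebra.single_add]
    abel
  | single x r =>
    obtain ⟨k, rfl⟩ := hc x
    refine ⟨-(r • ∑ i ∈ Finset.range k, (MonoidAlgebra.single c (1 : ℤ)) ^ i), ?_⟩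
    have h1 := geom_sum_mul (MonoidAlgebra.single c (1 : ℤ)) k
    have h2 : (MonoidAlgebra.single c (1 : ℤ)) ^ k = MonoidAlgebra.single (c ^ k) 1 := by
      rw [MonoidAlgebra.single_pow, one_pow]
    rw [neg_mul, ← mul_neg, neg_sub, smul_mul_assoc, h1, h2, aug_single, smul_sub,
      MonoidAlgebra.smul_single, smul_eq_mul, mul_one, MonoidAlgebra.one_def,
      MonoidAlgebra.smul_single, smul_eq_mul, mul_one]

theorem aug_mulR (a : MonoidAlgebra ℤ C) : aug (mulR c a) = 0 := by
  rw [mulR_apply]
  induction a using MonoidAlgebra.induction_linear with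
  | zero => rw [zero_mul, aug_zero]
  | add x y hx hy => rw [add_mul, aug_add, hx, hy, add_zero]
  | single x r =>
    rw [mul_sub, mul_one, MonoidAlgebra.single_mul_single, mul_one, sub_eq_add_neg,
      ← MonoidAlgebra.single_neg, aug_add, aug_single, aug_single, add_neg_cancel]

/-- The map onto the augmentation ideal. -/
noncomputable def mulK : MonoidAlgebra ℤ C →ₗ[MonoidAlgebra ℤ C] LinearMap.ker (epsT C) :=
  (mulR c).codRestrict _ fun a => (mem_ker_eps _).2 (aug_mulR c a)

include hc in
theorem mulK_surj : Function.Surjective (mulK c) := by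
  rintro ⟨a, ha⟩
  obtain ⟨b, hb⟩ := aug_range c hc a
  rw [(mem_ker_eps a).1 ha, MonoidAlgebra.single_zero, sub_zero] at hb
  exact ⟨b, Subtype.ext hb⟩

theorem coeff_mul (a : MonoidAlgebra ℤ C) (h : a * (1 - MonoidAlgebra.single c 1) = 0) (x : C) :
    a.coeff (x * c⁻¹) = a.coeff x := by
  rw [mul_sub, mul_one, sub_eq_zero] at h
  have h1 := congrArg (fun b : MonoidAlgebra ℤ C => b.coeff x) h
  simp only [MonoidAlgebra.coeff_mul_single_apply] at h1
  rw [h1, mul_one]

include hc in
theorem coeff_const (a : MonoidAlgebra ℤ C) (h : ∀ x, a.coeff (x * c⁻¹) = a.coeff x) (x : C) :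
    a.coeff x = a.coeff 1 := by
  obtain ⟨k, rfl⟩ := hc x
  induction k with
  | zero => rw [pow_zero]
  | succ k ih => rw [← ih, ← h (c ^ (k + 1)), pow_succ, mul_inv_cancel_right]

/-- The sum of the elements. -/
noncomputable def nrm (C : Type) [Group C] [Fintype C] : MonoidAlgebra ℤ C :=
  ∑ x : C, MonoidAlgebra.single x 1

theorem coeff_nrm [Fintype C] (x : C) : (nrm C).coeff x = 1 := by
  classical
  rw [nrm, MonoidAlgebra.coeff_sum, Finsupp.finsetSum_apply]
  rw [Finset.sum_eq_single x]
  · rw [MonoidAlgebra.coeff_single, Finsupp.single_eq_same]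
  · intro y _ hy
    rw [MonoidAlgebra.coeff_single, Finsupp.single_eq_of_ne (Ne.symm hy)]
  · intro h
    exact absurd (Finset.mem_univ x) h

theorem mul_nrm [Fintype C] (a : MonoidAlgebra ℤ C) : a * nrm C = aug a • nrm C := by
  induction a using MonoidAlgebra.induction_linear with
  | zero => rw [zero_mul, aug_zero, zero_smul]
  | add x y hx hy => rw [add_mul, aug_add, hx, hy, add_smul]
  | single x r =>
    rw [aug_single, nrm, Finset.mul_sum, Finset.smul_sum]
    refine Fintype.sum_equiv (Equiv.mulLeft x) _ _ fun y => ?_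
    rw [MonoidAlgebra.single_mul_single, MonoidAlgebra.smul_single, smul_eq_mul]
    rfl

theorem aug_nrm [Fintype C] : aug (nrm C) = Fintype.card C := by
  have h1 : ∀ s : Finset C, aug (∑ x ∈ s, MonoidAlgebra.single x (1 : ℤ)) = s.card := by
    classical
    intro s
    induction s using Finset.induction_on with
    | empty => rw [Finset.sum_empty, aug_zero, Finset.card_empty, Nat.cast_zero]
    | insert x s hx ih =>
      rw [Finset.sum_insert hx, aug_add, aug_single, ih, Finset.card_insert_of_notMem hx]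
      push_cast
      ring
  exact h1 Finset.univ

theorem aug_smul (k : ℤ) (a : MonoidAlgebra ℤ C) : aug (k • a) = k * aug a := by
  rw [aug, map_smul, LinearMap.smul_apply, smul_eq_mul]
  rfl

/-- The kernel of the map onto the augmentation ideal is the trivial module. -/
noncomputable def kerE [Fintype C] (hc : ∀ x : C, ∃ k : ℕ, c ^ k = x) :
    LinearMap.ker (mulK c) ≃ₗ[MonoidAlgebra ℤ C] TM C := by
  let F : TM C →ₗ[MonoidAlgebra ℤ C] MonoidAlgebra ℤ C :=
    { toFun := fun t => (Representation.trivial ℤ C ℤ).asModuleEquiv t • nrm C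
      map_add' := fun s t => by rw [map_add, add_smul]
      map_smul' := fun a t => by
        rw [smul_tm, RingHom.id_apply, smul_eq_mul, mul_smul_comm, mul_nrm, smul_smul, mul_comm] }
  have hF : ∀ t, F t ∈ LinearMap.ker (mulK c) := by
    intro t
    rw [LinearMap.mem_ker]
    apply Subtype.ext
    change F t * (1 - MonoidAlgebra.single c 1) = 0
    have h1 : nrm C * (1 - MonoidAlgebra.single c 1) = 0 := by
      rw [mul_sub, mul_one, sub_eq_zero, nrm, Finset.sum_mul]
      refine Fintype.sum_equiv (Equiv.mulRight c⁻¹) _ _ fun y => ?_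
      rw [MonoidAlgebra.single_mul_single, mul_one]
      change _ = MonoidAlgebra.single (y * c⁻¹ * c) 1
      rw [inv_mul_cancel_right]
    change ((Representation.trivial ℤ C ℤ).asModuleEquiv t • nrm C) *
      (1 - MonoidAlgebra.single c 1) = 0
    rw [smul_mul_assoc, h1, smul_zero]
  refine (LinearEquiv.ofBijective (F.codRestrict _ hF) ⟨?_, ?_⟩).symm
  · intro s t hst
    have h1 := congrArg (fun a : LinearMap.ker (mulK c) => (a : MonoidAlgebra ℤ C).coeff 1) hst
    have h2 : ∀ t : TM C, (F t).coeff 1 = (Representation.trivial ℤ C ℤ).asModuleEquiv t := by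
      intro t
      change ((Representation.trivial ℤ C ℤ).asModuleEquiv t • nrm C).coeff 1 = _
      rw [MonoidAlgebra.coeff_smul, Finsupp.smul_apply, coeff_nrm, smul_eq_mul, mul_one]
    apply (Representation.trivial ℤ C ℤ).asModuleEquiv.injective
    rw [← h2, ← h2]
    exact h1
  · rintro ⟨a, ha⟩
    have h1 : a * (1 - MonoidAlgebra.single c 1) = 0 := congrArg Subtype.val ha
    refine ⟨(Representation.trivial ℤ C ℤ).asModuleEquiv.symm (a.coeff 1), Subtype.ext ?_⟩
    change (Representation.trivial ℤ C ℤ).asModuleEquiv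
      ((Representation.trivial ℤ C ℤ).asModuleEquiv.symm (a.coeff 1)) • nrm C = a
    rw [LinearEquiv.apply_symm_apply]
    ext x
    rw [MonoidAlgebra.coeff_smul, Finsupp.smul_apply, coeff_nrm, smul_eq_mul, mul_one,
      coeff_const c hc a (coeff_mul c a h1) x]

include hc in
theorem pd_step [Fintype C] (n : ℕ)
    (h : HasProjectiveDimensionLT (ModuleCat.of (MonoidAlgebra ℤ C) (TM C)) (n + 3)) :
    HasProjectiveDimensionLT (ModuleCat.of (MonoidAlgebra ℤ C) (TM C)) (n + 1) := by
  have h1 := pd_ker (epsT C) epsT_surj (n + 1) h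
  have h2 := pd_ker (mulK c) (mulK_surj c hc) n h1
  exact hasProjectiveDimensionLT_of_iso (kerE c hc).toModuleIso (n + 1)

include hc in
theorem pd_one [Fintype C] (n : ℕ)
    (h : HasProjectiveDimensionLT (ModuleCat.of (MonoidAlgebra ℤ C) (TM C)) (2 * n + 1)) :
    HasProjectiveDimensionLT (ModuleCat.of (MonoidAlgebra ℤ C) (TM C)) 1 := by
  induction n with
  | zero => exact h
  | succ n ih => exact ih (pd_step c hc (2 * n) h)

include hc in
theorem triv_of_cd [Fintype C] (n : ℕ) (h : CdLE n C) : c = 1 := by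
  have h0 : HasProjectiveDimensionLT (ModuleCat.of (MonoidAlgebra ℤ C) (TM C)) (n + 1) := h
  have h1 : HasProjectiveDimensionLT (ModuleCat.of (MonoidAlgebra ℤ C) (TM C)) (2 * n + 1) :=
    hasProjectiveDimensionLT_of_ge _ (n + 1) _ (by omega)
  have h2 := pd_one c hc n h1
  have h3 : Module.Projective (MonoidAlgebra ℤ C) (TM C) :=
    (IsProjective.iff_projective _).mpr (projective_iff_hasProjectiveDimensionLT_one.mpr h2)
  obtain ⟨s, hs⟩ := Module.projective_lifting_property (epsT C) LinearMap.id epsT_surj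
  set e := s (t1 C) with he
  have h4 : aug e = 1 := by
    rw [← epsT_val]
    have h5 : epsT C e = t1 C := LinearMap.congr_fun hs (t1 C)
    rw [h5, t1, LinearEquiv.apply_symm_apply]
  have h5 : ∀ x : C, MonoidAlgebra.single x 1 * e = e := by
    intro x
    have h6 : (MonoidAlgebra.single x (1 : ℤ)) • t1 C = t1 C := by
      apply (Representation.trivial ℤ C ℤ).asModuleEquiv.injective
      rw [smul_tm, aug_single, one_mul]
    have h7 : s ((MonoidAlgebra.single x (1 : ℤ)) • t1 C) =
        MonoidAlgebra.single x (1 : ℤ) • e := map_smul s _ _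
    rw [h6] at h7
    exact h7.symm
  have h6 : ∀ x : C, e.coeff x = e.coeff 1 := by
    intro x
    have h7 := congrArg (fun b : MonoidAlgebra ℤ C => b.coeff x) (h5 x)
    simp only [MonoidAlgebra.coeff_single_mul_apply] at h7
    rw [← h7, inv_mul_cancel, one_mul]
  have h7 : e = e.coeff 1 • nrm C := by
    ext x
    rw [MonoidAlgebra.coeff_smul, Finsupp.smul_apply, coeff_nrm, smul_eq_mul, mul_one, h6]
  rw [h7, aug_smul, aug_nrm] at h4
  have h8 : (Fintype.card C : ℤ) ∣ 1 := ⟨_, by rw [mul_comm]; exact h4.symm⟩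
  have h9 : Fintype.card C = 1 := by
    have h10 : Fintype.card C ∣ 1 := by exact_mod_cast h8
    exact Nat.dvd_one.1 h10
  exact (Fintype.card_eq_one_iff_nonempty_unique.1 h9).some.uniq c |>.trans
    ((Fintype.card_eq_one_iff_nonempty_unique.1 h9).some.uniq 1).symm

end

/-- Groups of finite cohomological dimension are torsion free. -/
theorem tf_of_cd {G : Type} [Group G] (n : ℕ) (h : CdLE n G) (g : G) (m : ℕ) (hm : 0 < m)
    (hg : g ^ m = 1) : g = 1 := by
  have hfin : Finite (Subgroup.zpowers g) := by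
    exact finite_zpowers.2 (isOfFinOrder_iff_pow_eq_one.2 ⟨m, hm, hg⟩)
  have : Fintype (Subgroup.zpowers g) := Fintype.ofFinite _
  have h1 : CdLE n (Subgroup.zpowers g) :=
    WaldP.cdLE_sub (Subgroup.zpowers g).subtype (Subgroup.zpowers g).subtype_injective h
  let c : Subgroup.zpowers g := ⟨g, Subgroup.mem_zpowers g⟩
  have h2 : ∀ x : Subgroup.zpowers g, ∃ k : ℕ, c ^ k = x := by
    rintro ⟨x, hx⟩
    have h3 : x ∈ Submonoid.powers g :=
      (isOfFinOrder_iff_pow_eq_one.2 ⟨m, hm, hg⟩).mem_powers_iff_mem_zpowers.2 hx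
    obtain ⟨k, hk⟩ := h3
    exact ⟨k, Subtype.ext hk⟩
  exact congrArg Subtype.val (triv_of_cd c h2 n h1)

end Pool.Agent.TypeFF.Tf
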